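import Pool.Agent.H83.Gm1

set_option autoImplicit false

namespace Pool.Agent.Results.MP_a930b8_gt.CHYes

open Cardinal Pool.Agent.H85.TauDefs Pool.Agent.H85.TauDefs2

/-- Under CH some set of reals satisfies `S1(Omega, Tau)` but not `S1((O_n)_n, Tau)`. -/
theorem result (hCH : (𝔠 : Cardinal.{0}) = ℵ₁) :
    ∃ Y : Set ℝ, S1 (Omega Y) (Tau Y) ∧ ¬ S1Seq (NCover Y) (Tau Y) := by
  obtain ⟨X, h1, h2⟩ := Pool.Agent.H83.Gm.main hCH
  obtain ⟨Y, h3, h4⟩ := Pool.Agent.H85.Tau2.exists_double X h1 h2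
  exact ⟨Y, Pool.Agent.H85.Tau.S1_mono h3 Set.Subset.rfl Pool.Agent.H85.Tau.gamma_sub_tau, h4⟩

end Pool.Agent.Results.MP_a930b8_gt.CHYes
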