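import Pool.Agent.H85.Tau2

set_option autoImplicit false

namespace Pool.Agent.Results.MP_a930b8_gt.Doubling

open Pool.Agent.H85.TauDefs Pool.Agent.H85.TauDefs2

/-- If some gamma-set of reals is not a strong gamma-set, then some set of reals satisfies
`S1(Omega, Tau)` but not `S1((O_n)_n, Tau)`. -/
theorem result (X : Set ℝ) (h1 : S1 (Omega X) (Gamma X)) (h2 : ¬ S1Seq (NCover X) (Gamma X)) :
    ∃ Y : Set ℝ, S1 (Omega Y) (Tau Y) ∧ ¬ S1Seq (NCover Y) (Tau Y) := by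
  obtain ⟨Y, h3, h4⟩ := Pool.Agent.H85.Tau2.exists_double X h1 h2
  exact ⟨Y, Pool.Agent.H85.Tau.S1_mono h3 Set.Subset.rfl Pool.Agent.H85.Tau.gamma_sub_tau, h4⟩

end Pool.Agent.Results.MP_a930b8_gt.Doubling
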